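import Mathlib

/-!
# Arc-binding set-indexers attaining the extremal arc bound

Every finite loopless digraph has an arc-binding set-indexer that attains the extremal bound on
every arc, so the digraphs asked for are all digraphs.
-/

namespace Pool.Agent.Results.MP_95765a_co.AllDigraphs

variable {V X : Type*} [DecidableEq X]

/-- `f` is a set-indexer of `D`: both `f` and the arc function `(u, v) ↦ f u \ f v` are
injective. -/
def IsSetIndexer (D : Digraph V) (f : V → Finset X) : Prop :=
  Function.Injective f ∧
    ∀ u v u' v', D.Adj u v → D.Adj u' v' → f u \ f v = f u' \ f v' → u = u' ∧ v = v'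

/-- `f` is arc-binding: `|f u \ f v| < |f v|` for every arc `(u, v)`. -/
def IsArcBinding (D : Digraph V) (f : V → Finset X) : Prop :=
  ∀ u v, D.Adj u v → (f u \ f v).card < (f v).card

/-- `f` attains the extremal bound: `|f u \ f v| = min {|f u|, |f v| - 1}` for every arc
`(u, v)`. -/
def IsExtremal (D : Digraph V) (f : V → Finset X) : Prop :=
  ∀ u v, D.Adj u v → ((f u \ f v).card : ℤ) = min ((f u).card : ℤ) ((f v).card - 1)

/-- Every finite digraph without loops has an arc-binding set-indexer (over some finite nonempty
ground set `X`) for which equality holds in the extremal bound on every arc. -/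
theorem result : ∀ (V : Type) [Fintype V] (D : Digraph V), (∀ v, ¬ D.Adj v v) →
    ∃ (X : Type) (_ : Fintype X) (_ : Nonempty X) (_ : DecidableEq X) (f : V → Finset X),
      IsSetIndexer D f ∧ IsArcBinding D f ∧ IsExtremal D f := by
  classical
  intro V _ D hl
  let adj : V → V → Prop := fun u v => D.Adj u v ∨ D.Adj v u
  let e : V → V → Option (Sym2 V ⊕ (V × V)) := fun v w =>
    some (if adj v w then Sum.inl s(v, w) else Sum.inr (v, w))
  have adj_symm : ∀ u v, adj u v → adj v u := fun u v h => h.symm
  have adj_irr : ∀ v, ¬ adj v v := fun v h => h.elim (hl v) (hl v)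
  have e_inj : ∀ v, Function.Injective (e v) := by
    intro v w w' h
    simp only [e, Option.some.injEq] at h
    split_ifs at h with h1 h2 h2
    · rw [Sum.inl.injEq, Sym2.eq_iff] at h
      rcases h with h | h
      · exact h.2
      · exact h.2.trans h.1
    · rw [Sum.inr.injEq, Prod.mk.injEq] at h
      exact h.2
  let f : V → Finset (Option (Sym2 V ⊕ (V × V))) := fun v => Finset.univ.image (e v)
  have hcard : ∀ v, (f v).card = Fintype.card V := fun v => by
    simp only [f]
    rw [Finset.card_image_of_injective _ (e_inj v), Finset.card_univ]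
  have hmem : ∀ v x, x ∈ f v ↔ ∃ w, e v w = x := fun v x => by simp [f]
  -- the private element
  have hpriv : ∀ v u, e v v ∈ f u → u = v := by
    intro v u h
    obtain ⟨w, hw⟩ := (hmem _ _).1 h
    simp only [e, adj_irr v, if_false, Option.some.injEq] at hw
    split_ifs at hw with h1
    rw [Sum.inr.injEq, Prod.mk.injEq] at hw
    exact hw.1
  have hinter : ∀ u v, adj u v → f u ∩ f v = {e u v} := by
    intro u v huv
    have hne : u ≠ v := by rintro rfl; exact adj_irr _ huv
    ext x
    rw [Finset.mem_inter, Finset.mem_singleton, hmem, hmem]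
    constructor
    · rintro ⟨⟨w, rfl⟩, ⟨w', h⟩⟩
      simp only [e, Option.some.injEq] at h
      split_ifs at h with h1 h2
      · rw [Sum.inl.injEq, Sym2.eq_iff] at h
        rcases h with h | h
        · exact absurd h.1.symm hne
        · rw [h.1]
      · rw [Sum.inr.injEq, Prod.mk.injEq] at h
        exact absurd h.1.symm hne
    · rintro rfl
      refine ⟨⟨v, rfl⟩, ⟨u, ?_⟩⟩
      simp only [e, if_pos huv, if_pos (adj_symm _ _ huv)]
      rw [Sym2.eq_swap]
  have hdiff : ∀ u v, adj u v → f u \ f v = f u \ {e u v} := by
    intro u v huv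
    rw [← Finset.sdiff_inter_self_left, hinter u v huv]
  have heuv : ∀ u v, e u v ∈ f u := fun u v => (hmem _ _).2 ⟨v, rfl⟩
  have hdcard : ∀ u v, adj u v → (f u \ f v).card = Fintype.card V - 1 := by
    intro u v huv
    rw [hdiff u v huv, Finset.card_sdiff_of_subset
      (Finset.singleton_subset_iff.2 (heuv u v)), hcard, Finset.card_singleton]
  have hpos : ∀ v : V, 0 < Fintype.card V := fun v => Fintype.card_pos_iff.2 ⟨v⟩
  refine ⟨Option (Sym2 V ⊕ (V × V)), inferInstance, inferInstance, inferInstance, f, ⟨?_, ?_⟩,
    ?_, ?_⟩
  · intro u v h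
    exact (hpriv v u (h ▸ heuv v v))
  · intro u v u' v' h h' heq
    have huv : adj u v := Or.inl h
    have huv' : adj u' v' := Or.inl h'
    rw [hdiff u v huv, hdiff u' v' huv'] at heq
    have hu : u' = u := by
      apply hpriv u u'
      have : e u u ∈ f u \ {e u v} := by
        rw [Finset.mem_sdiff, Finset.mem_singleton]
        refine ⟨heuv u u, fun h => ?_⟩
        have := e_inj u h
        subst this
        exact hl _ ‹D.Adj _ _›
      rw [heq] at this
      exact (Finset.mem_sdiff.1 this).1
    subst hu
    refine ⟨rfl, ?_⟩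
    by_contra hne
    have : e u' v ∈ f u' \ {e u' v'} := by
      rw [Finset.mem_sdiff, Finset.mem_singleton]
      exact ⟨heuv _ _, fun h => hne (e_inj _ h)⟩
    rw [← heq] at this
    exact (Finset.mem_sdiff.1 this).2 (Finset.mem_singleton_self _)
  · intro u v h
    rw [hdcard u v (Or.inl h), hcard]
    have := hpos u
    omega
  · intro u v h
    rw [hdcard u v (Or.inl h), hcard, hcard]
    have := hpos u
    rw [min_eq_right (by omega)]
    omega

end Pool.Agent.Results.MP_95765a_co.AllDigraphs
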